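import Pool.Agent.Lib.MP_3ea60f_nt.Least

/-! # The union bound over the twin primes -/

namespace MP3ea60f

open Finset Filter Topology

/-- The `n ≤ N` with a twin prime `q ≤ B` as in Q1. -/
def TwinSet (N B : ℕ) : Set ℕ :=
  {n | n ≤ N ∧ ∃ q : ℕ, q.Prime ∧ (q + 2).Prime ∧ q ≤ B ∧ q < n ∧ (pr (n - q) + q + 1).Prime}

theorem card_le_twin2 (N B : ℕ) : ((TwinSet N B).ncard : ℝ) ≤
    ∑ q ∈ (Icc 1 B).filter (fun q => q.Prime ∧ (q + 2).Prime), MP293bbf.twin (pr N) (q + 1) := by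
  classical
  set T : Finset (Σ _ : ℕ, ℕ) := ((Icc 1 B).filter (fun q => q.Prime ∧ (q + 2).Prime)).sigma
    (fun q => (Icc 1 (pr N)).filter (fun p => p.Prime ∧ (p + (q + 1)).Prime)) with hT
  set f : (Σ _ : ℕ, ℕ) → ℕ := fun x => Nat.count Nat.Prime x.2 + (x.1 + 1) with hf
  have hsub : TwinSet N B ⊆ ↑(T.image f) := by
    rintro n ⟨hn, q, h0, h1, h2, h3, h4⟩
    rw [Finset.mem_coe, Finset.mem_image]
    refine ⟨⟨q, pr (n - q)⟩, ?_, ?_⟩
    · rw [hT, Finset.mem_sigma]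
      refine ⟨Finset.mem_filter.2 ⟨Finset.mem_Icc.2 ⟨h0.one_lt.le, h2⟩, h0, h1⟩, ?_⟩
      rw [Finset.mem_filter, Finset.mem_Icc]
      exact ⟨⟨(pr_prime _).one_lt.le, pr_mono (by omega)⟩, pr_prime _, by
        rw [← add_assoc]; exact h4⟩
    · show Nat.count Nat.Prime (pr (n - q)) + (q + 1) = n
      unfold pr
      rw [Nat.count_nth_of_infinite Nat.infinite_setOfPred_prime]
      omega
  have h1 := Set.ncard_le_ncard hsub (Finset.finite_toSet _)
  rw [Set.ncard_coe_finset] at h1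
  have h2 : (T.image f).card ≤ T.card := Finset.card_image_le
  have h3 : (T.card : ℝ) = ∑ q ∈ (Icc 1 B).filter (fun q => q.Prime ∧ (q + 2).Prime),
      MP293bbf.twin (pr N) (q + 1) := by
    rw [hT, Finset.card_sigma]
    push_cast
    rfl
  rw [← h3]
  exact_mod_cast h1.trans h2

end MP3ea60f
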