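import Pool.Agent.Lib.MP_3ea60f_ntH91.Holder
import Pool.Agent.Lib.MP_3ea60f_ntH91.Card

/-! # MP_3ea60f_nt: the quantitative bound for twin primes `q` -/

namespace MP3ea60f

open Finset Filter Topology

private theorem Bound_log {B : ℕ} (hB : 3 ≤ B) : 1 ≤ Real.log B ∧ Real.log B ^ 2 ≤ 4 * B := by
  have hBr : (3 : ℝ) ≤ B := by exact_mod_cast hB
  constructor
  · rw [Real.le_log_iff_exp_le (by linarith)]
    have := Real.exp_one_lt_d9
    linarith
  · have hs : 0 < Real.sqrt B := Real.sqrt_pos.2 (by linarith)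
    have h1 : Real.log B = 2 * Real.log (Real.sqrt B) := by
      rw [Real.log_sqrt (by linarith)]
      ring
    have h2 := Real.log_le_sub_one_of_pos hs
    have h3 : 0 ≤ Real.log B := Real.log_nonneg (by linarith)
    have h4 : Real.log B ≤ 2 * Real.sqrt B := by linarith
    calc Real.log B ^ 2 ≤ (2 * Real.sqrt B) ^ 2 := pow_le_pow_left₀ h3 h4 2
      _ = 4 * B := by
        rw [mul_pow, Real.sq_sqrt (by linarith)]
        norm_num

theorem bound_twin (ε : ℝ) (hε : 0 < ε) : ∃ C : ℝ, 0 < C ∧ ∀ N B : ℕ, 2 ≤ N → 3 ≤ B →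
    ((TwinSet N B).ncard : ℝ) ≤ C * B * N / (Real.log N * Real.log B ^ (2 - ε)) := by
  obtain ⟨n, hn⟩ := exists_nat_gt (2 / ε)
  obtain ⟨C1, hC1, hsum⟩ := MP293bbf.sig_twin_sum n
  obtain ⟨X0, hterm⟩ := MP293bbf.pair_term
  have hX1 : 0 < Real.log (max X0 2) :=
    Real.log_pos (lt_of_lt_of_le one_lt_two (le_max_right _ _))
  have hn0 : (0 : ℝ) ≤ n := Nat.cast_nonneg n
  have hexp : 2 - ε ≤ 2 * (n : ℝ) / (n + 1) := by
    rw [le_div_iff₀ (by linarith)]
    rw [div_lt_iff₀ hε] at hn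
    nlinarith
  refine ⟨6150 * C1 + 4 * Real.log (max X0 2), by positivity, ?_⟩
  intro N B hN hB
  obtain ⟨hL1, hL2⟩ := Bound_log hB
  have hNr : (2 : ℝ) ≤ N := by exact_mod_cast hN
  have hBr : (3 : ℝ) ≤ B := by exact_mod_cast hB
  have hlN : 0 < Real.log N := Real.log_pos (by linarith)
  have hL0 : 0 < Real.log B := by linarith
  have hR : 0 < Real.log B ^ (2 - ε) := Real.rpow_pos_of_pos hL0 _
  rcases le_or_gt X0 (pr N : ℝ) with hX | hX
  · have h2 := pr_le hN
    have h3 : Real.log N ≤ Real.log (pr N) :=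
      Real.log_le_log (by linarith) (by exact_mod_cast le_pr N)
    have hlP : 0 < Real.log (pr N) := lt_of_lt_of_le hlN h3
    have hT : (pr N : ℝ) / (Real.log (pr N)) ^ 2 ≤ 3 * N / Real.log N := by
      rw [div_le_div_iff₀ (by positivity) hlN]
      calc (pr N : ℝ) * Real.log N ≤ (3 * N * Real.log (pr N)) * Real.log (pr N) := by
            gcongr
        _ = 3 * N * Real.log (pr N) ^ 2 := by ring
    have hT0 : 0 ≤ (pr N : ℝ) / (Real.log (pr N)) ^ 2 := by positivity
    have hS : ∑ q ∈ (Icc 1 B).filter (fun q => q.Prime ∧ (q + 2).Prime),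
        MP293bbf.sig (q + 1) ^ 2 ≤ C1 * B / Real.log B ^ (2 - ε) := by
      refine (hsum B hB).trans ?_
      have h4 : Real.log B ^ (2 - ε) ≤ Real.log B ^ (2 * (n : ℝ) / (n + 1)) :=
        Real.rpow_le_rpow_of_exponent_le hL1 hexp
      exact div_le_div_of_nonneg_left (by positivity) hR h4
    have hS0 : 0 ≤ ∑ q ∈ (Icc 1 B).filter (fun q => q.Prime ∧ (q + 2).Prime),
        MP293bbf.sig (q + 1) ^ 2 := sum_nonneg fun q _ => sq_nonneg _
    calc ((TwinSet N B).ncard : ℝ)
        ≤ ∑ q ∈ (Icc 1 B).filter (fun q => q.Prime ∧ (q + 2).Prime),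
            MP293bbf.twin (pr N) (q + 1) := card_le_twin2 N B
      _ ≤ ∑ q ∈ (Icc 1 B).filter (fun q => q.Prime ∧ (q + 2).Prime),
            2050 * ((pr N : ℝ) / (Real.log (pr N)) ^ 2) * MP293bbf.sig (q + 1) ^ 2 :=
          sum_le_sum fun q _ => hterm (pr N) hX (q + 1) (Nat.succ_pos q)
      _ = 2050 * ((pr N : ℝ) / (Real.log (pr N)) ^ 2) *
            ∑ q ∈ (Icc 1 B).filter (fun q => q.Prime ∧ (q + 2).Prime),
              MP293bbf.sig (q + 1) ^ 2 := by
          rw [mul_sum]
      _ ≤ 2050 * (3 * N / Real.log N) * (C1 * B / Real.log B ^ (2 - ε)) := by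
          gcongr
      _ = 6150 * C1 * B * N / (Real.log N * Real.log B ^ (2 - ε)) := by
          field_simp
          ring
      _ ≤ (6150 * C1 + 4 * Real.log (max X0 2)) * B * N /
            (Real.log N * Real.log B ^ (2 - ε)) := by
          gcongr
          linarith
  · have h1 : ((TwinSet N B).ncard : ℝ) ≤ N := by
      have hs : TwinSet N B ⊆ ↑(Icc 1 N) := by
        rintro k ⟨hk, q, h1, h2, h3, h4, h5⟩
        rw [Finset.mem_coe, Finset.mem_Icc]
        omega
      have h2 := Set.ncard_le_ncard hs (Finset.finite_toSet _)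
      rw [Set.ncard_coe_finset, Nat.card_Icc] at h2
      exact_mod_cast (by omega : (TwinSet N B).ncard ≤ N)
    refine h1.trans ?_
    rw [le_div_iff₀ (by positivity)]
    have h2 : (N : ℝ) ≤ pr N := by exact_mod_cast le_pr N
    have h3 : Real.log N ≤ Real.log (max X0 2) :=
      Real.log_le_log (by linarith) ((h2.trans hX.le).trans (le_max_left _ _))
    have h4 : Real.log B ^ (2 - ε) ≤ 4 * B := by
      refine le_trans ?_ hL2
      rw [← Real.rpow_two]
      exact Real.rpow_le_rpow_of_exponent_le hL1 (by linarith)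
    have h5 : Real.log N * Real.log B ^ (2 - ε) ≤ Real.log (max X0 2) * (4 * B) :=
      mul_le_mul h3 h4 hR.le hX1.le
    have h6 : (0 : ℝ) ≤ 6150 * C1 * B := by positivity
    calc (N : ℝ) * (Real.log N * Real.log B ^ (2 - ε))
        ≤ N * (Real.log (max X0 2) * (4 * B) + 6150 * C1 * B) :=
          mul_le_mul_of_nonneg_left (by linarith) (by linarith)
      _ = (6150 * C1 + 4 * Real.log (max X0 2)) * B * N := by ring

end MP3ea60f
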