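import Pool.Agent.Lib.MP_3ea60f_ntH91.Bound

/-! # MP_3ea60f_nt: the density form -/

namespace MP3ea60f

open Finset Filter Topology

theorem density_twin (ε : ℝ) (hε : 0 < ε) (hε2 : ε ≤ 1) :
    Tendsto (fun N : ℕ =>
      (({n | n ≤ N ∧ ∃ q : ℕ, q.Prime ∧ (q + 2).Prime ∧
        (q : ℝ) ≤ Real.log N * Real.log (Real.log N) ^ (2 - ε) ∧ q < n ∧
        (pr (n - q) + q + 1).Prime} : Set ℕ).ncard : ℝ) / N) atTop (𝓝 0) := by
  obtain ⟨C, hC, hb⟩ := bound_twin (ε / 2) (by linarith)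
  have hL : Tendsto (fun N : ℕ => Real.log (N : ℝ)) atTop atTop :=
    Real.tendsto_log_atTop.comp tendsto_natCast_atTop_atTop
  have hl : Tendsto (fun N : ℕ => Real.log (Real.log (N : ℝ))) atTop atTop :=
    Real.tendsto_log_atTop.comp hL
  have hz : Tendsto (fun N : ℕ => C * 2 ^ (2 - ε / 2) * Real.log (Real.log (N : ℝ)) ^ (-(ε / 2)))
      atTop (𝓝 0) := by
    have h1 := (tendsto_rpow_neg_atTop (show (0 : ℝ) < ε / 2 by linarith)).comp hl
    have h2 := h1.const_mul (C * (2 : ℝ) ^ (2 - ε / 2))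
    rw [mul_zero] at h2
    exact h2
  refine squeeze_zero' (Eventually.of_forall fun N => by positivity) ?_ hz
  filter_upwards [hL.eventually_ge_atTop 4, hl.eventually_ge_atTop 1, eventually_ge_atTop 2]
    with N h4 h1 h2
  have hN0 : (0 : ℝ) < N := by
    have : 0 < N := by omega
    exact_mod_cast this
  obtain ⟨L, hLd⟩ : ∃ L : ℝ, L = Real.log (N : ℝ) := ⟨_, rfl⟩
  obtain ⟨l, hld⟩ : ∃ l : ℝ, l = Real.log L := ⟨_, rfl⟩
  rw [← hLd] at h4 h1
  rw [← hld] at h1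
  rw [← hLd, ← hld]
  have hL0 : 0 < L := by linarith
  have hl0 : 0 < l := by linarith
  have hp1 : 1 ≤ l ^ (2 - ε) := Real.one_le_rpow h1 (by linarith)
  have hyL : L ≤ L * l ^ (2 - ε) := by nlinarith
  obtain ⟨B, hBd⟩ : ∃ B : ℕ, B = ⌊L * l ^ (2 - ε)⌋₊ := ⟨_, rfl⟩
  have hBle : (B : ℝ) ≤ L * l ^ (2 - ε) := by
    rw [hBd]
    exact Nat.floor_le (by positivity)
  have hBge : L - 1 ≤ B := by
    have h5 := Nat.lt_floor_add_one (L * l ^ (2 - ε))
    rw [← hBd] at h5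
    linarith
  have hB3 : 3 ≤ B := by
    rw [hBd]
    exact Nat.le_floor (by push_cast; linarith)
  have hBs : √L ≤ B := by
    refine le_trans ?_ hBge
    exact Real.sqrt_le_iff.2 ⟨by linarith, by nlinarith⟩
  have hsq : 0 < √L := Real.sqrt_pos.2 hL0
  have hlB : l / 2 ≤ Real.log B := by
    rw [hld, ← Real.log_sqrt hL0.le]
    exact Real.log_le_log hsq hBs
  have hsub : ({n | n ≤ N ∧ ∃ q : ℕ, q.Prime ∧ (q + 2).Prime ∧
        (q : ℝ) ≤ L * l ^ (2 - ε) ∧ q < n ∧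
        (pr (n - q) + q + 1).Prime} : Set ℕ) ⊆ TwinSet N B := by
    rintro n ⟨hn, q, q1, q2, q3, q4, q5⟩
    exact ⟨hn, q, q1, q2, by rw [hBd]; exact Nat.le_floor q3, q4, q5⟩
  have hfin : (TwinSet N B).Finite := (Set.finite_Iic N).subset fun n hn => hn.1
  have hc : (({n | n ≤ N ∧ ∃ q : ℕ, q.Prime ∧ (q + 2).Prime ∧
        (q : ℝ) ≤ L * l ^ (2 - ε) ∧ q < n ∧
        (pr (n - q) + q + 1).Prime} : Set ℕ).ncard : ℝ) ≤ ((TwinSet N B).ncard : ℝ) := by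
    exact_mod_cast Set.ncard_le_ncard hsub hfin
  have hb' := hb N B h2 hB3
  rw [← hLd] at hb'
  rw [div_le_iff₀ hN0]
  have hexp : 0 ≤ 2 - ε / 2 := by linarith
  calc (({n | n ≤ N ∧ ∃ q : ℕ, q.Prime ∧ (q + 2).Prime ∧
        (q : ℝ) ≤ L * l ^ (2 - ε) ∧ q < n ∧
        (pr (n - q) + q + 1).Prime} : Set ℕ).ncard : ℝ) ≤ ((TwinSet N B).ncard : ℝ) := hc
    _ ≤ C * B * N / (L * Real.log B ^ (2 - ε / 2)) := hb'
    _ ≤ C * (L * l ^ (2 - ε)) * N / (L * (l / 2) ^ (2 - ε / 2)) := by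
      refine div_le_div₀ (by positivity) ?_ (by positivity) ?_
      · exact mul_le_mul_of_nonneg_right (mul_le_mul_of_nonneg_left hBle hC.le) hN0.le
      · exact mul_le_mul_of_nonneg_left
          (Real.rpow_le_rpow (by positivity) hlB hexp) hL0.le
    _ = C * 2 ^ (2 - ε / 2) * l ^ (-(ε / 2)) * N := by
      have e1 : l ^ (2 - ε) = l ^ (2 - ε / 2) * l ^ (-(ε / 2)) := by
        rw [← Real.rpow_add hl0]
        congr 1
        ring
      rw [Real.div_rpow hl0.le (by norm_num), e1]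
      have e2 : (0 : ℝ) < l ^ (2 - ε / 2) := Real.rpow_pos_of_pos hl0 _
      have e3 : (0 : ℝ) < (2 : ℝ) ^ (2 - ε / 2) := Real.rpow_pos_of_pos (by norm_num) _
      field_simp

end MP3ea60f
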