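import Pool.Agent.Lib.MP_3ea60f_ntH91.Term

/-! # Brun's bound for the number of twin primes -/

open Finset

namespace MP293bbf

theorem twin_count : ∃ C : ℝ, 0 < C ∧ ∀ B : ℕ, 2 ≤ B → twin B 2 ≤ C * B / (Real.log B) ^ 2 := by
  obtain ⟨X0, hX0⟩ := pair_term
  have hL : 0 < Real.log (max X0 2) :=
    Real.log_pos (lt_of_lt_of_le one_lt_two (le_max_right _ _))
  refine ⟨2050 * (sig 2) ^ 2 + (Real.log (max X0 2)) ^ 2, by positivity, fun B hB => ?_⟩
  have hBr : (2 : ℝ) ≤ B := by exact_mod_cast hB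
  have hlB : 0 < Real.log B := Real.log_pos (by linarith)
  rcases le_or_gt X0 (B : ℝ) with h | h
  · refine (hX0 B h 2 (by norm_num)).trans ?_
    rw [le_div_iff₀ (by positivity)]
    have e1 : 2050 * ((B : ℝ) / (Real.log B) ^ 2) * (sig 2) ^ 2 * (Real.log B) ^ 2 =
        2050 * (sig 2) ^ 2 * B := by
      field_simp
    rw [e1]
    have : 0 ≤ (Real.log (max X0 2)) ^ 2 * B := by positivity
    nlinarith
  · have h1 : twin B 2 ≤ B := by
      unfold twin
      have := Finset.card_filter_le (Icc 1 B) (fun p => p.Prime ∧ (p + 2).Prime)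
      rw [Nat.card_Icc, Nat.add_sub_cancel] at this
      exact_mod_cast this
    refine h1.trans ?_
    rw [le_div_iff₀ (by positivity)]
    have h2 : Real.log B ≤ Real.log (max X0 2) :=
      Real.log_le_log (by linarith) (h.le.trans (le_max_left _ _))
    have h3 : (Real.log B) ^ 2 ≤ (Real.log (max X0 2)) ^ 2 := pow_le_pow_left₀ hlB.le h2 2
    have h4 : (B : ℝ) * (Real.log B) ^ 2 ≤ B * (Real.log (max X0 2)) ^ 2 :=
      mul_le_mul_of_nonneg_left h3 (by linarith)
    have h5 : 0 ≤ 2050 * (sig 2) ^ 2 * (B : ℝ) := by positivity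
    nlinarith

end MP293bbf
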