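import Pool.Agent.Lib.MP_3ea60f_ntH91.Moment
import Pool.Agent.Lib.MP_3ea60f_ntH91.TwinCount

/-! # The mean of `(σ(q + 1) / (q + 1)) ^ 2` over the twin primes `q` -/

open Finset

namespace MP293bbf

theorem sig_twin_sum (n : ℕ) : ∃ C : ℝ, 0 < C ∧ ∀ B : ℕ, 3 ≤ B →
    ∑ q ∈ (Icc 1 B).filter (fun q => q.Prime ∧ (q + 2).Prime), (sig (q + 1)) ^ 2 ≤
      C * B / Real.log B ^ (2 * (n : ℝ) / (n + 1)) := by
  obtain ⟨C2, hC2, h2⟩ := sig_pow_sum (2 * (n + 1)) (by omega)
  obtain ⟨C1, hC1, h1⟩ := twin_count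
  refine ⟨C1 + 2 * C2 + 1, by positivity, fun B hB => ?_⟩
  set T := (Icc 1 B).filter (fun q => q.Prime ∧ (q + 2).Prime) with hT
  have hBr : (3 : ℝ) ≤ B := by exact_mod_cast hB
  have hlog : 0 < Real.log B := Real.log_pos (by linarith)
  have hcard : (T.card : ℝ) ≤ C1 * B / (Real.log B) ^ 2 := by
    have h3 := h1 B (by omega)
    unfold twin at h3
    exact h3
  have hsum : ∑ q ∈ T, ((sig (q + 1)) ^ 2) ^ (n + 1) ≤ 2 * C2 * B := by
    calc ∑ q ∈ T, ((sig (q + 1)) ^ 2) ^ (n + 1)
        = ∑ q ∈ T, (sig (q + 1)) ^ (2 * (n + 1)) := by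
          refine Finset.sum_congr rfl fun q _ => ?_
          rw [← pow_mul]
      _ = ∑ d ∈ T.image (fun q => q + 1), (sig d) ^ (2 * (n + 1)) := by
          rw [Finset.sum_image]
          intro a _ b _ h
          simpa using h
      _ ≤ ∑ d ∈ Icc 1 (B + 1), (sig d) ^ (2 * (n + 1)) := by
          apply Finset.sum_le_sum_of_subset_of_nonneg
          · intro d hd
            obtain ⟨q, hq, rfl⟩ := Finset.mem_image.1 hd
            have h3 := Finset.mem_Icc.1 (Finset.mem_filter.1 hq).1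
            rw [Finset.mem_Icc]
            omega
          · intro d _ _
            exact Even.pow_nonneg ⟨n + 1, by ring⟩ _
      _ ≤ C2 * ((B + 1 : ℕ) : ℝ) := h2 (B + 1)
      _ ≤ 2 * C2 * B := by push_cast; nlinarith
  have hpow := pow_sum_le_card_mul_sum_pow (s := T) (f := fun q => (sig (q + 1)) ^ 2)
    (fun q _ => by positivity) n
  set L := Real.log B ^ (2 * (n : ℝ) / (n + 1)) with hL
  have hLpos : 0 < L := Real.rpow_pos_of_pos hlog _
  have hLpow : L ^ (n + 1) = (Real.log B) ^ (2 * n) := by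
    rw [hL, ← Real.rpow_natCast, ← Real.rpow_mul hlog.le, ← Real.rpow_natCast]
    congr 1
    push_cast
    field_simp
  have hmain : (∑ q ∈ T, (sig (q + 1)) ^ 2) ^ (n + 1) ≤
      ((C1 + 2 * C2 + 1) * B / L) ^ (n + 1) := by
    calc (∑ q ∈ T, (sig (q + 1)) ^ 2) ^ (n + 1)
        ≤ (T.card : ℝ) ^ n * ∑ q ∈ T, ((sig (q + 1)) ^ 2) ^ (n + 1) := hpow
      _ ≤ (C1 * B / (Real.log B) ^ 2) ^ n * (2 * C2 * B) := by
          apply mul_le_mul (pow_le_pow_left₀ (by positivity) hcard n) hsum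
          · exact Finset.sum_nonneg fun q _ => by positivity
          · positivity
      _ ≤ ((C1 + 2 * C2 + 1) * B / (Real.log B) ^ 2) ^ n * ((C1 + 2 * C2 + 1) * B) := by
          apply mul_le_mul
          · apply pow_le_pow_left₀ (by positivity)
            apply div_le_div_of_nonneg_right _ (by positivity)
            nlinarith
          · nlinarith
          · positivity
          · positivity
      _ = ((C1 + 2 * C2 + 1) * B / L) ^ (n + 1) := by
          rw [div_pow, div_pow, hLpow, ← pow_mul]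
          ring
  exact le_of_pow_le_pow_left₀ (by omega) (by positivity) hmain

end MP293bbf
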