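import Pool.Agent.Lib.MP_3ea60f_ntH91.Term

/-! # Moments of `σ(d) / d` -/

open Finset

namespace MP293bbf

private theorem m91_sig (h d : ℕ) (hd : d ∈ Icc 1 h) :
    sig d = ∑ k ∈ Icc 1 h, if k ∣ d then (1 : ℝ) / k else 0 := by
  rw [mem_Icc] at hd
  have : d.divisors = (Icc 1 h).filter (fun k => k ∣ d) := by
    ext k
    rw [Nat.mem_divisors, mem_filter, mem_Icc]
    constructor
    · rintro ⟨h1, h2⟩
      have h3 := Nat.le_of_dvd (by omega) h1
      have h4 : 0 < k := Nat.pos_of_dvd_of_pos h1 (by omega)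
      exact ⟨⟨h4, h3.trans hd.2⟩, h1⟩
    · rintro ⟨h1, h2⟩
      exact ⟨h2, by omega⟩
  rw [sig, this, sum_filter]

private theorem m91_card (K : ℕ) (hK : 1 ≤ K) (h : ℕ) (f : Fin K → ℕ) (hf : ∀ i, 0 < f i) :
    (((Icc 1 h).filter (fun d => ∀ i, f i ∣ d)).card : ℝ) ≤
      h * ∏ i, (f i : ℝ) ^ (-(1 / (K : ℝ))) := by
  obtain ⟨c, hc⟩ : ∃ c, c = ((Icc 1 h).filter (fun d => ∀ i, f i ∣ d)).card := ⟨_, rfl⟩
  rw [← hc]
  have h1 : ∀ i, (c : ℝ) * f i ≤ h := fun i => by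
    have h2 : c ≤ h / f i := by
      rw [hc, ← Nat.Ioc_filter_dvd_card_eq_div h (f i)]
      exact card_le_card (monotone_filter_right _ fun d _ hd => hd i)
    exact_mod_cast (Nat.le_div_iff_mul_le (hf i)).1 h2
  have hK0 : (0 : ℝ) < K := by exact_mod_cast hK
  have hfr : ∀ i, (0 : ℝ) < f i := fun i => by exact_mod_cast hf i
  have hP : 0 < ∏ i, (f i : ℝ) ^ (-(1 / (K : ℝ))) :=
    Finset.prod_pos fun i _ => Real.rpow_pos_of_pos (hfr i) _
  refine le_of_pow_le_pow_left₀ (by omega : K ≠ 0) (by positivity) ?_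
  have e1 : ((h : ℝ) * ∏ i, (f i : ℝ) ^ (-(1 / (K : ℝ)))) ^ K = (h : ℝ) ^ K * ∏ i, (f i : ℝ)⁻¹ := by
    rw [mul_pow, ← Finset.prod_pow]
    congr 1
    refine Finset.prod_congr rfl fun i _ => ?_
    rw [← Real.rpow_natCast, ← Real.rpow_mul (hfr i).le, ← Real.rpow_neg_one]
    congr 1
    field_simp
  rw [e1]
  have h3 : ∏ i : Fin K, ((c : ℝ) * f i) ≤ ∏ _i : Fin K, (h : ℝ) :=
    Finset.prod_le_prod (fun i _ => by positivity) fun i _ => h1 i
  rw [Finset.prod_mul_distrib, Finset.prod_const, Finset.prod_const, Finset.card_univ,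
    Fintype.card_fin] at h3
  have hQ : 0 < ∏ i, (f i : ℝ) := Finset.prod_pos fun i _ => hfr i
  rw [Finset.prod_inv_distrib, ← div_eq_mul_inv, le_div_iff₀ hQ]
  exact h3

/-- All moments of `σ(d) / d` are bounded. -/
theorem sig_pow_sum (K : ℕ) (hK : 1 ≤ K) : ∃ C : ℝ, 0 < C ∧ ∀ h : ℕ,
    ∑ d ∈ Icc 1 h, (sig d) ^ K ≤ C * h := by
  have hK0 : (0 : ℝ) < K := by exact_mod_cast hK
  obtain ⟨e, he⟩ : ∃ e : ℝ, e = -(1 + 1 / (K : ℝ)) := ⟨_, rfl⟩
  have hs : Summable fun k : ℕ => (k : ℝ) ^ e := by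
    rw [Real.summable_nat_rpow, he]
    have : 0 < 1 / (K : ℝ) := by positivity
    linarith
  have hS0 : 0 ≤ ∑' k : ℕ, (k : ℝ) ^ e := tsum_nonneg fun k => by positivity
  refine ⟨(∑' k : ℕ, (k : ℝ) ^ e + 1) ^ K, by positivity, fun h => ?_⟩
  have h1 : ∑ d ∈ Icc 1 h, (sig d) ^ K = ∑ f ∈ Fintype.piFinset (fun _ : Fin K => Icc 1 h),
      (((Icc 1 h).filter (fun d => ∀ i, f i ∣ d)).card : ℝ) * ∏ i, (1 : ℝ) / f i := by
    have e1 : ∀ d ∈ Icc 1 h, (sig d) ^ K = ∑ f ∈ Fintype.piFinset (fun _ : Fin K => Icc 1 h),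
        if ∀ i, f i ∣ d then ∏ i, (1 : ℝ) / f i else 0 := by
      intro d hd
      have e2 : (sig d) ^ K = ∏ _i : Fin K, ∑ k ∈ Icc 1 h, if k ∣ d then (1 : ℝ) / k else 0 := by
        rw [Finset.prod_const, Finset.card_univ, Fintype.card_fin, m91_sig h d hd]
      rw [e2, Finset.prod_univ_sum]
      refine Finset.sum_congr rfl fun f _ => ?_
      by_cases hall : ∀ i, f i ∣ d
      · rw [if_pos hall]
        exact Finset.prod_congr rfl fun i _ => if_pos (hall i)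
      · rw [if_neg hall]
        push Not at hall
        obtain ⟨i, hi⟩ := hall
        exact Finset.prod_eq_zero (Finset.mem_univ i) (if_neg hi)
    rw [Finset.sum_congr rfl e1, Finset.sum_comm]
    refine Finset.sum_congr rfl fun f _ => ?_
    rw [← Finset.sum_filter, Finset.sum_const, nsmul_eq_mul]
  rw [h1]
  have h2 : ∑ f ∈ Fintype.piFinset (fun _ : Fin K => Icc 1 h),
      (((Icc 1 h).filter (fun d => ∀ i, f i ∣ d)).card : ℝ) * ∏ i, (1 : ℝ) / f i ≤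
      ∑ f ∈ Fintype.piFinset (fun _ : Fin K => Icc 1 h), (h : ℝ) * ∏ i, (f i : ℝ) ^ e := by
    refine Finset.sum_le_sum fun f hf => ?_
    rw [Fintype.mem_piFinset] at hf
    have hf0 : ∀ i, 0 < f i := fun i => by have := hf i; rw [mem_Icc] at this; omega
    have hfr : ∀ i, (0 : ℝ) < f i := fun i => by exact_mod_cast hf0 i
    have h3 := m91_card K hK h f hf0
    have h4 : 0 ≤ ∏ i, (1 : ℝ) / f i := Finset.prod_nonneg fun i _ => by positivity
    refine (mul_le_mul_of_nonneg_right h3 h4).trans (le_of_eq ?_)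
    rw [mul_assoc, ← Finset.prod_mul_distrib]
    congr 1
    refine Finset.prod_congr rfl fun i _ => ?_
    rw [one_div (f i : ℝ), ← Real.rpow_neg_one, ← Real.rpow_add (hfr i), he]
    congr 1
    ring
  refine h2.trans ?_
  rw [← Finset.mul_sum]
  have h5 : ∑ f ∈ Fintype.piFinset (fun _ : Fin K => Icc 1 h), ∏ i, (f i : ℝ) ^ e =
      (∑ k ∈ Icc 1 h, (k : ℝ) ^ e) ^ K := by
    have := Finset.prod_univ_sum (fun _ : Fin K => Icc 1 h) (fun (_ : Fin K) (k : ℕ) => (k : ℝ) ^ e)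
    rw [← this, Finset.prod_const, Finset.card_univ, Fintype.card_fin]
  rw [h5, mul_comm]
  refine mul_le_mul_of_nonneg_right ?_ (Nat.cast_nonneg h)
  refine pow_le_pow_left₀ (Finset.sum_nonneg fun k _ => by positivity) ?_ K
  have h6 := hs.sum_le_tsum (Icc 1 h) (fun k _ => by positivity)
  linarith

end MP293bbf
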