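import Pool.Agent.Lib.MP_3ea60f_nt.Least

/-! # The bound of the pairs of primes with a given difference, and sums of powers of `σ(d) / d` -/

open Finset

namespace MP293bbf

theorem one_le_sig {d : ℕ} (hd : 0 < d) : 1 ≤ sig d := by
  unfold sig
  have h1 : (1 : ℕ) ∈ d.divisors := Nat.one_mem_divisors.2 hd.ne'
  have h2 := Finset.single_le_sum (f := fun k : ℕ => (1 : ℝ) / k) (fun k _ => by positivity) h1
  simpa using h2

/-- For a given difference `d` (as in `pair_bound`). -/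
theorem pair_term : ∃ X0 : ℝ, ∀ X : ℕ, X0 ≤ X → ∀ d : ℕ, 0 < d →
    twin X d ≤ 2050 * (X / (Real.log X) ^ 2) * (sig d) ^ 2 := by
  have hlo := (isLittleO_log_rpow_atTop (show (0 : ℝ) < 1 / 16 by norm_num)).bound
    (show (0 : ℝ) < 1 by norm_num)
  rw [Filter.eventually_atTop] at hlo
  obtain ⟨X1, hX1⟩ := hlo
  refine ⟨max X1 (4 ^ 16), ?_⟩
  intro X hX
  have hXa : X1 ≤ (X : ℝ) := (le_max_left _ _).trans hX
  have hXb : (4 : ℝ) ^ 16 ≤ X := (le_max_right _ _).trans hX
  have hXpos : (0 : ℝ) < X := lt_of_lt_of_le (by norm_num) hXb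
  have hX1' : (1 : ℝ) < X := lt_of_lt_of_le (by norm_num) hXb
  have hlogpos : 0 < Real.log X := Real.log_pos hX1'
  set t : ℝ := (X : ℝ) ^ ((1 : ℝ) / 16) with ht
  have ht16 : t ^ 16 = X := by
    rw [ht, ← Real.rpow_natCast, ← Real.rpow_mul hXpos.le]
    norm_num
  have ht4 : 4 ≤ t := by
    by_contra hlt
    push Not at hlt
    have ht0 : 0 ≤ t := Real.rpow_nonneg hXpos.le _
    have : t ^ 16 < 4 ^ 16 := pow_lt_pow_left₀ hlt ht0 (by norm_num)
    rw [ht16] at this
    linarith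
  have hlogt : Real.log X ≤ t := by
    have := hX1 X hXa
    rw [one_mul, Real.norm_of_nonneg hlogpos.le, Real.norm_of_nonneg (Real.rpow_nonneg hXpos.le _)]
      at this
    exact this
  have ht0 : 0 < t := by linarith
  -- the quantity T
  set T : ℝ := (X : ℝ) / (Real.log X) ^ 2 with hT
  have hTt : t ^ 14 ≤ T := by
    rw [hT, le_div_iff₀ (by positivity)]
    calc t ^ 14 * (Real.log X) ^ 2 ≤ t ^ 14 * t ^ 2 :=
          mul_le_mul_of_nonneg_left (pow_le_pow_left₀ hlogpos.le hlogt 2) (by positivity)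
      _ = t ^ 16 := by ring
      _ = X := ht16
  have hT0 : 0 < T := by positivity
  have hT1 : 1 ≤ T := le_trans (one_le_pow₀ (by linarith)) hTt
  -- z
  set z : ℕ := ⌊t ^ 2⌋₊ with hz
  have hzle : (z : ℝ) ≤ t ^ 2 := Nat.floor_le (by positivity)
  have hzge : t ≤ z := by
    have h1 : t ^ 2 < z + 1 := Nat.lt_floor_add_one _
    nlinarith
  have hz2 : 2 ≤ z := by
    have : (2 : ℝ) ≤ z := by linarith
    exact_mod_cast this
  have hzr : (2 : ℝ) ≤ z := by exact_mod_cast hz2
  have hlogz : Real.log X / 16 ≤ Real.log z := by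
    have h1 : Real.log X = 16 * Real.log t := by
      rw [← ht16, Real.log_pow]
      norm_num
    have h2 : Real.log t ≤ Real.log z := Real.log_le_log ht0 hzge
    linarith
  have hz4 : (z : ℝ) ^ 2 ≤ t ^ 4 := by
    calc (z : ℝ) ^ 2 ≤ (t ^ 2) ^ 2 := pow_le_pow_left₀ (by linarith) hzle 2
      _ = t ^ 4 := by ring
  have hlz : Real.log ((z : ℝ) ^ 2) ≤ t := by
    refine le_trans (Real.log_le_log (by positivity) ?_) hlogt
    calc (z : ℝ) ^ 2 ≤ t ^ 4 := hz4
      _ ≤ t ^ 16 := pow_le_pow_right₀ (by linarith) (by norm_num)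
      _ = X := ht16
  have hlz0 : 0 ≤ Real.log ((z : ℝ) ^ 2) := Real.log_nonneg (by nlinarith)
  have hA : (z : ℝ) ^ 2 ≤ T := by
    refine hz4.trans (le_trans (pow_le_pow_right₀ (by linarith) (by norm_num)) hTt)
  have hB : ((z : ℝ) ^ 2 * (1 + Real.log ((z : ℝ) ^ 2))) ^ 2 ≤ T := by
    have h1 : (z : ℝ) ^ 2 * (1 + Real.log ((z : ℝ) ^ 2)) ≤ t ^ 4 * (2 * t) := by
      refine mul_le_mul hz4 (by linarith) (by positivity) (by positivity)
    calc ((z : ℝ) ^ 2 * (1 + Real.log ((z : ℝ) ^ 2))) ^ 2 ≤ (t ^ 4 * (2 * t)) ^ 2 :=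
          pow_le_pow_left₀ (by positivity) h1 2
      _ = 4 * t ^ 10 := by ring
      _ ≤ t ^ 4 * t ^ 10 := by
          refine mul_le_mul_of_nonneg_right ?_ (by positivity)
          calc (4 : ℝ) ≤ t := ht4
            _ = t ^ 1 := (pow_one t).symm
            _ ≤ t ^ 4 := pow_le_pow_right₀ (by linarith) (by norm_num)
      _ = t ^ 14 := by ring
      _ ≤ T := hTt
  have hterm : ∀ d : ℕ, 0 < d → twin X d ≤ 2 * T + 2048 * T * (sig d) ^ 2 := by
    intro d hd0
    have hs : 0 ≤ 2048 * T * (sig d) ^ 2 := by positivity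
    by_cases he : Even d
    · have h1 := s7_pair_even X z d hz2 hd0 he
      have h2 : 8 * X * (sig d) ^ 2 / (Real.log z) ^ 2 ≤ 2048 * T * (sig d) ^ 2 := by
        have hlz' : 0 < Real.log z := by linarith [div_pos hlogpos (show (0 : ℝ) < 16 by norm_num)]
        rw [div_le_iff₀ (by positivity)]
        have h3 : (Real.log X / 16) ^ 2 ≤ (Real.log z) ^ 2 :=
          pow_le_pow_left₀ (by positivity) hlogz 2
        have h4 : (X : ℝ) = T * (Real.log X) ^ 2 := by
          rw [hT]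
          field_simp
        have h5 : 0 ≤ T * (sig d) ^ 2 := by positivity
        have h6 := mul_le_mul_of_nonneg_left h3 h5
        have h7 : 8 * (X : ℝ) * (sig d) ^ 2 = 8 * (T * (Real.log X) ^ 2) * (sig d) ^ 2 :=
          congrArg (fun u : ℝ => 8 * u * (sig d) ^ 2) h4
        calc 8 * (X : ℝ) * (sig d) ^ 2 = 2048 * (T * (sig d) ^ 2 * (Real.log X / 16) ^ 2) := by
              rw [h7]
              ring
          _ ≤ 2048 * (T * (sig d) ^ 2 * (Real.log z) ^ 2) := by linarith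
          _ = _ := by ring
      linarith
    · have h1 := s7_twin_odd X d hd0 he
      linarith
  intro d hd
  have h1 := hterm d hd
  have h2 : (1 : ℝ) ≤ (sig d) ^ 2 := one_le_pow₀ (one_le_sig hd)
  have h3 : 2 * T ≤ 2 * T * (sig d) ^ 2 := le_mul_of_one_le_right (by positivity) h2
  linarith

end MP293bbf
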